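import Pool.Agent.N954.P1.Sk

/-!
Project P1 (helper979): the numerical conditions for `J = 1` (helper954).
-/

set_option autoImplicit false
set_option maxRecDepth 100000

namespace Pool.Agent.N954.P1.J1

open Pool.Agent.N979.P1 Pool.Agent.N954.P1

def fa : Fin 21 → ℚ := ![
    1, 1, 0, 0, 0, 0, 0, 0, 0, 0, 0, 0, 0, 0, 0, 0, 0, 0, 0, 0, 0]

def c : Fin 17 → ℚ := ![
    551/5, 647/50, 203/50, 23/25, -71/1000, -189/1000, -27/1000, 19/125, 113/500, 31/125,
    1019/5000, 287/2000, 44/625, -1/5000, -487/10000, -629/10000, -93/2000]

def μ : ℚ := -126/625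

def al : Fin 18 → ℚ := ![
    0, 1653/31250, 47799/500000, 68099/500000, 78679/500000, 77117/500000, 140437/1000000,
    137467/1000000, 161787/1000000, 213767/1000000, 290647/1000000, 376243/1000000, 7112/15625,
    1583/3125, 126591/250000, 54773/125000, 153047/500000, 55397/500000]

def be : Fin 18 → ℚ := ![
    1305131/10000, 203131/10000, 73731/10000, 33131/10000, 23931/10000, 24641/10000, 26531/10000,
    26801/10000, 25281/10000, 23021/10000, 20541/10000, 18503/10000, 4267/2500, 4091/2500,
    8183/5000, 16853/10000, 8741/5000, 17947/10000]

theorem hfa : ∀ j : Fin 21, fa j = if j.val < 1 + 1 then 1 else 0 := by decide +kernel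

theorem hA : Tab A.datQ fa c μ al be where
  hc := by decide +kernel
  hμ := by decide +kernel
  hα := by decide +kernel
  hβ := by decide +kernel

def fclo : Fin 21 → ℚ := ![
    493/1004, 0, 0, 0, 0, 0, 0, 0, 0, 0, 0, 0, 0, 0, 0, 0, 0, 0, 0, 0, 0]

def clo : Fin 17 → ℚ := ![
    787321/10040, 900711/100400, 13311/5020, 16269/25100, 35989/1004000, -3451/31375,
    -88247/1004000, -21199/502000, -1479/1004000, 48807/1004000, 567443/10040000, 58667/1004000,
    442221/10040000, 5423/251000, -26129/5020000, -228259/10040000, -228259/10040000]

def μlo : ℚ := -4437/50200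

def allo : Fin 18 → ℚ := ![
    0, 2361963/62750000, 67514871/1004000000, 94136871/1004000000, 109104351/1004000000,
    110687867/1004000000, 102626331/1004000000, 92919161/1004000000, 86135481/1004000000,
    85795311/1004000000, 100925481/1004000000, 124758087/1004000000, 157024937/1004000000,
    18930707/100400000, 21056523/100400000, 20324911/100400000, 970717/6275000, 2972297/50200000]

def belo : Fin 18 → ℚ := ![
    92940403/1004000, 14208303/1004000, 5201193/1004000, 2538993/1004000, 1888233/1004000,
    463061/251000, 490669/251000, 2050923/1004000, 2093321/1004000, 5237/2510, 2045993/1004000,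
    19892487/10040000, 19305817/10040000, 4715899/2510000, 4661669/2510000, 9349467/5020000,
    18927193/10040000, 4788863/2510000]

def alo : Fin 6 → ℚ := ![
    153670037/200000000, -90535303/62500000, 610436053/200000000, 3308873239/1000000000,
    -410509923/250000000, 414412777/500000000]

def blo : Fin 6 → ℚ := ![
    384175093/500000000, -1448564847/1000000000, 1526090133/500000000, 82721831/25000000,
    -1642039691/1000000000, 165765111/200000000]

def ulo : Fin 8 → ℚ := ![
    508474673/200000000, 2378600973/1000000000, 2529724999/1000000000, 2345143271/1000000000,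
    419668023/200000000, 548495739/200000000, 1348147173/500000000, 11398441/1000000000]

def vlo : Fin 8 → ℚ := ![
    254237337/100000000, 2378600977/1000000000, 2529725003/1000000000, 586285819/250000000,
    2098340119/1000000000, 27424787/10000000, 2696294351/1000000000, 2279689/200000000]

/-- the radius -/
def rlo : ℚ := 251/2500

theorem hrlo : A.datQ.ρ (1 : Fin 21) = rlo := by decide +kernel

theorem hfclo : ∀ j : Fin 21, fclo j = if j.val < 1 + 1 then 1 - A.datQ.ρ j / rlo else 0 := by
  decide +kernel

theorem hClo : Tab A.datQ fclo clo μlo allo belo where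
  hc := by decide +kernel
  hμ := by decide +kernel
  hα := by decide +kernel
  hβ := by decide +kernel

theorem sixlo : Six 18 A.dlo A.dhi sT kT al be allo belo (A.lamLo (1 : Fin 21)) alo blo where
  a0 := by decide +kernel
  b0 := by decide +kernel
  a1 := by decide +kernel
  b1 := by decide +kernel
  a2 := by decide +kernel
  b2 := by decide +kernel
  a3 := by decide +kernel
  b3 := by decide +kernel
  a4 := by decide +kernel
  b4 := by decide +kernel
  a5 := by decide +kernel
  b5 := by decide +kernel

theorem lastlo : Last alo blo ulo vlo where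
  p0 := by decide +kernel
  p1 := by decide +kernel
  p2 := by decide +kernel
  p3 := by decide +kernel
  p4 := by decide +kernel
  p5 := by decide +kernel
  p6 := by decide +kernel
  p7 := by decide +kernel
  f1 := by decide +kernel
  f0 := by decide +kernel
  f2 := by decide +kernel

theorem cklo (h : A.S_BND) : CondQ A.datQ (1 : Fin 21) (A.datQ.ρ (1 : Fin 21)) (A.lamLo (1 : Fin 21)) := by
  rw [hrlo]
  exact condQ A.datQ A.dlo A.dhi (1 : Fin 21) rlo (A.lamLo (1 : Fin 21)) h fa fclo hfa hfclo hA hClo hsT hkT
    (by decide +kernel) (by decide +kernel) sixlo lastlo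

def fchi : Fin 21 → ℚ := ![
    138/211, 473/1477, 0, 0, 0, 0, 0, 0, 0, 0, 0, 0, 0, 0, 0, 0, 0, 0, 0, 0, 0]

def chi : Fin 17 → ℚ := ![
    1308567/14770, 1512773/147700, 229129/73850, 27148/36925, 1203/738500, -28547/211000,
    -50509/738500, 2107/105500, 105419/1477000, 166111/1477000, 1531417/14770000, 7231/84400,
    775213/14770000, 107987/7385000, -282609/14770000, -32861/923125, -112051/3692500]

def μhi : ℚ := -230121/1846250

def alhi : Fin 18 → ℚ := ![
    0, 3925701/92312500, 644187/8440000, 6342341/59080000, 36706937/295400000,
    183640549/1477000000, 21131629/184625000, 39485263/369250000, 40665183/369250000,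
    93453551/738500000, 29800189/184625000, 151360513/738500000, 372319401/1477000000,
    1225457/4220000, 32148243/105500000, 29322153/105500000, 21435513/105500000, 7989393/105500000]

def behi : Fin 18 → ℚ := ![
    1546730993/14770000, 238163993/14770000, 86886693/14770000, 41060893/14770000,
    30201693/14770000, 30177633/14770000, 32175923/14770000, 33186103/14770000,
    32891123/14770000, 31836933/14770000, 30175823/14770000, 2046029/1055000, 3911283/2110000,
    3325471/1846250, 13193897/7385000, 26670403/14770000, 27196179/14770000, 27644383/14770000]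

def ahi : Fin 6 → ℚ := ![
    383195713/500000000, -284447957/200000000, 1540370767/500000000, 1667604133/500000000,
    -827431063/500000000, 167007049/200000000]

def bhi : Fin 6 → ℚ := ![
    766391427/1000000000, -177779973/125000000, 616148307/200000000, 3335208267/1000000000,
    -13238897/8000000, 417517623/500000000]

def uhi : Fin 8 → ℚ := ![
    1278037509/500000000, 2353610751/1000000000, 2572527761/1000000000, 2361053897/1000000000,
    2022766003/1000000000, 2785016451/1000000000, 684642163/250000000, 7856363/500000000]

def vhi : Fin 8 → ℚ := ![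
    159754689/62500000, 470722151/200000000, 1286263883/500000000, 1180526951/500000000,
    2022766007/1000000000, 348127057/125000000, 2738568657/1000000000, 15712731/1000000000]

/-- the radius -/
def rhi : ℚ := 1477/10000

theorem hrhi : A.datQ.rhi A.RrQ (1 : Fin 21) = rhi := by decide +kernel

theorem hfchi : ∀ j : Fin 21, fchi j = if j.val < 1 + 1 then 1 - A.datQ.ρ j / rhi else 0 := by
  decide +kernel

theorem hChi : Tab A.datQ fchi chi μhi alhi behi where
  hc := by decide +kernel
  hμ := by decide +kernel
  hα := by decide +kernel
  hβ := by decide +kernel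

theorem sixhi : Six 18 A.dlo A.dhi sT kT al be alhi behi (A.lamHi (1 : Fin 21)) ahi bhi where
  a0 := by decide +kernel
  b0 := by decide +kernel
  a1 := by decide +kernel
  b1 := by decide +kernel
  a2 := by decide +kernel
  b2 := by decide +kernel
  a3 := by decide +kernel
  b3 := by decide +kernel
  a4 := by decide +kernel
  b4 := by decide +kernel
  a5 := by decide +kernel
  b5 := by decide +kernel

theorem lasthi : Last ahi bhi uhi vhi where
  p0 := by decide +kernel
  p1 := by decide +kernel
  p2 := by decide +kernel
  p3 := by decide +kernel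
  p4 := by decide +kernel
  p5 := by decide +kernel
  p6 := by decide +kernel
  p7 := by decide +kernel
  f1 := by decide +kernel
  f0 := by decide +kernel
  f2 := by decide +kernel

theorem ckhi (h : A.S_BND) : CondQ A.datQ (1 : Fin 21) (A.datQ.rhi A.RrQ (1 : Fin 21)) (A.lamHi (1 : Fin 21)) := by
  rw [hrhi]
  exact condQ A.datQ A.dlo A.dhi (1 : Fin 21) rhi (A.lamHi (1 : Fin 21)) h fa fchi hfa hfchi hA hChi hsT hkT
    (by decide +kernel) (by decide +kernel) sixhi lasthi

theorem main (h : A.S_BND) : A.S_CK (1 : Fin 21) := ⟨cklo h, ckhi h⟩

end Pool.Agent.N954.P1.J1
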