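import Pool.Agent.N954.P1.Sk

/-!
Project P1 (helper979): the numerical conditions for `J = 2` (helper954).
-/

set_option autoImplicit false
set_option maxRecDepth 100000

namespace Pool.Agent.N954.P1.J2

open Pool.Agent.N979.P1 Pool.Agent.N954.P1

def fa : Fin 21 → ℚ := ![
    1, 1, 1, 0, 0, 0, 0, 0, 0, 0, 0, 0, 0, 0, 0, 0, 0, 0, 0, 0, 0]

def c : Fin 17 → ℚ := ![
    209/2, 603/50, 71/20, 29/50, -117/500, -61/500, 23/125, 191/500, 19/50, 347/1000, 2621/10000,
    1843/10000, 211/2000, 307/10000, -193/5000, -787/10000, -731/10000]

def μ : ℚ := -3033/10000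

def al : Fin 18 → ℚ := ![
    0, 627/12500, 44979/500000, 62729/500000, 69399/500000, 64251/500000, 29899/250000,
    34959/250000, 50239/250000, 72089/250000, 197963/500000, 63251/125000, 607373/1000000,
    171097/250000, 357237/500000, 330217/500000, 123791/250000, 11759/62500]

def be : Fin 18 → ℚ := ![
    618561/5000, 96061/5000, 35761/5000, 18011/5000, 15111/5000, 16281/5000, 16891/5000,
    15971/5000, 14061/5000, 12161/5000, 5213/2500, 18231/10000, 4097/2500, 15333/10000,
    7513/5000, 3853/2500, 16199/10000, 1693/1000]

theorem hfa : ∀ j : Fin 21, fa j = if j.val < 2 + 1 then 1 else 0 := by decide +kernel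

theorem hA : Tab A.datQ fa c μ al be where
  hc := by decide +kernel
  hμ := by decide +kernel
  hα := by decide +kernel
  hβ := by decide +kernel

def fclo : Fin 21 → ℚ := ![
    138/211, 473/1477, 0, 0, 0, 0, 0, 0, 0, 0, 0, 0, 0, 0, 0, 0, 0, 0, 0, 0, 0]

def clo : Fin 17 → ℚ := ![
    1308567/14770, 1512773/147700, 229129/73850, 27148/36925, 1203/738500, -28547/211000,
    -50509/738500, 2107/105500, 105419/1477000, 166111/1477000, 1531417/14770000, 7231/84400,
    775213/14770000, 107987/7385000, -282609/14770000, -32861/923125, -112051/3692500]

def μlo : ℚ := -230121/1846250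

def allo : Fin 18 → ℚ := ![
    0, 3925701/92312500, 644187/8440000, 6342341/59080000, 36706937/295400000,
    183640549/1477000000, 21131629/184625000, 39485263/369250000, 40665183/369250000,
    93453551/738500000, 29800189/184625000, 151360513/738500000, 372319401/1477000000,
    1225457/4220000, 32148243/105500000, 29322153/105500000, 21435513/105500000, 7989393/105500000]

def belo : Fin 18 → ℚ := ![
    1546730993/14770000, 238163993/14770000, 86886693/14770000, 41060893/14770000,
    30201693/14770000, 30177633/14770000, 32175923/14770000, 33186103/14770000,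
    32891123/14770000, 31836933/14770000, 30175823/14770000, 2046029/1055000, 3911283/2110000,
    3325471/1846250, 13193897/7385000, 26670403/14770000, 27196179/14770000, 27644383/14770000]

def alo : Fin 6 → ℚ := ![
    30334147/40000000, -701856213/500000000, 3017080263/1000000000, 10607921/3125000,
    -835564711/500000000, 42479913/50000000]

def blo : Fin 6 → ℚ := ![
    189588419/250000000, -56148497/40000000, 377135033/125000000, 3394534721/1000000000,
    -1671129421/1000000000, 849598261/1000000000]

def ulo : Fin 8 → ℚ := ![
    2574257879/1000000000, 586446283/250000000, 2563306141/1000000000, 457602781/200000000,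
    492602143/250000000, 2883990791/1000000000, 2792673541/1000000000, 29002843/1000000000]

def vlo : Fin 8 → ℚ := ![
    643564471/250000000, 146611571/62500000, 1281653073/500000000, 2288013909/1000000000,
    78816343/40000000, 720997699/250000000, 1396336773/500000000, 906339/31250000]

/-- the radius -/
def rlo : ℚ := 1477/10000

theorem hrlo : A.datQ.ρ (2 : Fin 21) = rlo := by decide +kernel

theorem hfclo : ∀ j : Fin 21, fclo j = if j.val < 2 + 1 then 1 - A.datQ.ρ j / rlo else 0 := by
  decide +kernel

theorem hClo : Tab A.datQ fclo clo μlo allo belo where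
  hc := by decide +kernel
  hμ := by decide +kernel
  hα := by decide +kernel
  hβ := by decide +kernel

theorem sixlo : Six 18 A.dlo A.dhi sT kT al be allo belo (A.lamLo (2 : Fin 21)) alo blo where
  a0 := by decide +kernel
  b0 := by decide +kernel
  a1 := by decide +kernel
  b1 := by decide +kernel
  a2 := by decide +kernel
  b2 := by decide +kernel
  a3 := by decide +kernel
  b3 := by decide +kernel
  a4 := by decide +kernel
  b4 := by decide +kernel
  a5 := by decide +kernel
  b5 := by decide +kernel

theorem lastlo : Last alo blo ulo vlo where
  p0 := by decide +kernel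
  p1 := by decide +kernel
  p2 := by decide +kernel
  p3 := by decide +kernel
  p4 := by decide +kernel
  p5 := by decide +kernel
  p6 := by decide +kernel
  p7 := by decide +kernel
  f1 := by decide +kernel
  f0 := by decide +kernel
  f2 := by decide +kernel

theorem cklo (h : A.S_BND) : CondQ A.datQ (2 : Fin 21) (A.datQ.ρ (2 : Fin 21)) (A.lamLo (2 : Fin 21)) := by
  rw [hrlo]
  exact condQ A.datQ A.dlo A.dhi (2 : Fin 21) rlo (A.lamLo (2 : Fin 21)) h fa fclo hfa hfclo hA hClo hsT hkT
    (by decide +kernel) (by decide +kernel) sixlo lastlo

def fchi : Fin 21 → ℚ := ![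
    1419/1930, 463/965, 453/1930, 0, 0, 0, 0, 0, 0, 0, 0, 0, 0, 0, 0, 0, 0, 0, 0, 0, 0]

def chi : Fin 17 → ℚ := ![
    445488/4825, 2059091/193000, 619073/193000, 67433/96500, -25899/482500, -51019/386000,
    -8833/965000, 12659/120625, 277559/1930000, 161651/965000, 271873/1930000, 131269/1206250,
    156641/2412500, 71009/3860000, -457467/19300000, -882287/19300000, -779347/19300000]

def μhi : ℚ := -3214917/19300000

def alhi : Fin 18 → ℚ := ![
    0, 668232/15078125, 153483699/1930000000, 215390999/1930000000, 246410179/1930000000,
    48370391/386000000, 11161501/96500000, 5532169/48250000, 1268469/9650000, 31753237/193000000,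
    41775599/193000000, 10638853/38600000, 64745937/193000000, 369468857/965000000,
    193433031/482500000, 88710843/241250000, 262203237/965000000, 98540367/965000000]

def behi : Fin 18 → ℚ := ![
    2107147259/19300000, 325195259/19300000, 618063/100000, 57378859/19300000, 43892259/19300000,
    44928219/19300000, 47479169/19300000, 47655829/19300000, 45630389/19300000,
    42854799/19300000, 39621779/19300000, 36903049/19300000, 6960549/3860000, 33549617/19300000,
    8298643/4825000, 33652039/19300000, 17267163/9650000, 35313673/19300000]

def ahi : Fin 6 → ℚ := ![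
    47231057/62500000, -689513373/500000000, 612650831/200000000, 3416780567/1000000000,
    -1681832681/1000000000, 854678421/1000000000]

def bhi : Fin 6 → ℚ := ![
    755696913/1000000000, -275805349/200000000, 765813539/250000000, 427097571/125000000,
    -42045817/25000000, 427339211/500000000]

def uhi : Fin 8 → ℚ := ![
    2582050523/1000000000, 1159646123/500000000, 327262153/125000000, 462978341/200000000,
    1901714763/1000000000, 2920248619/1000000000, 2828561163/1000000000, 1894157/50000000]

def vhi : Fin 8 → ℚ := ![
    80689079/31250000, 9277169/4000000, 2618097229/1000000000, 231489171/100000000,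
    1901714767/1000000000, 23361989/8000000, 2828561167/1000000000, 18941573/500000000]

/-- the radius -/
def rhi : ℚ := 193/1000

theorem hrhi : A.datQ.rhi A.RrQ (2 : Fin 21) = rhi := by decide +kernel

theorem hfchi : ∀ j : Fin 21, fchi j = if j.val < 2 + 1 then 1 - A.datQ.ρ j / rhi else 0 := by
  decide +kernel

theorem hChi : Tab A.datQ fchi chi μhi alhi behi where
  hc := by decide +kernel
  hμ := by decide +kernel
  hα := by decide +kernel
  hβ := by decide +kernel

theorem sixhi : Six 18 A.dlo A.dhi sT kT al be alhi behi (A.lamHi (2 : Fin 21)) ahi bhi where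
  a0 := by decide +kernel
  b0 := by decide +kernel
  a1 := by decide +kernel
  b1 := by decide +kernel
  a2 := by decide +kernel
  b2 := by decide +kernel
  a3 := by decide +kernel
  b3 := by decide +kernel
  a4 := by decide +kernel
  b4 := by decide +kernel
  a5 := by decide +kernel
  b5 := by decide +kernel

theorem lasthi : Last ahi bhi uhi vhi where
  p0 := by decide +kernel
  p1 := by decide +kernel
  p2 := by decide +kernel
  p3 := by decide +kernel
  p4 := by decide +kernel
  p5 := by decide +kernel
  p6 := by decide +kernel
  p7 := by decide +kernel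
  f1 := by decide +kernel
  f0 := by decide +kernel
  f2 := by decide +kernel

theorem ckhi (h : A.S_BND) : CondQ A.datQ (2 : Fin 21) (A.datQ.rhi A.RrQ (2 : Fin 21)) (A.lamHi (2 : Fin 21)) := by
  rw [hrhi]
  exact condQ A.datQ A.dlo A.dhi (2 : Fin 21) rhi (A.lamHi (2 : Fin 21)) h fa fchi hfa hfchi hA hChi hsT hkT
    (by decide +kernel) (by decide +kernel) sixhi lasthi

theorem main (h : A.S_BND) : A.S_CK (2 : Fin 21) := ⟨cklo h, ckhi h⟩

end Pool.Agent.N954.P1.J2
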