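import Pool.Agent.N954.P1.Sk

/-!
Project P1 (helper979): the numerical conditions for `J = 3` (helper954).
-/

set_option autoImplicit false
set_option maxRecDepth 100000

namespace Pool.Agent.N954.P1.J3

open Pool.Agent.N979.P1 Pool.Agent.N954.P1

def fa : Fin 21 → ℚ := ![
    1, 1, 1, 1, 0, 0, 0, 0, 0, 0, 0, 0, 0, 0, 0, 0, 0, 0, 0, 0, 0]

def c : Fin 17 → ℚ := ![
    1069/10, 609/50, 329/100, 23/100, -323/1000, 11/125, 233/500, 61/100, 263/500, 91/200,
    3487/10000, 1299/5000, 1611/10000, 21/400, -537/10000, -141/1250, -1009/10000]

def μ : ℚ := -4223/10000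

def al : Fin 18 → ℚ := ![
    0, 3207/62500, 45753/500000, 62203/500000, 4053/31250, 28871/250000, 30477/250000,
    10823/62500, 16923/62500, 97937/250000, 266399/500000, 169813/250000, 411071/500000,
    187949/200000, 198239/200000, 183203/200000, 135827/200000, 51071/200000]

def be : Fin 18 → ℚ := ![
    1265507/10000, 196507/10000, 74707/10000, 41807/10000, 39507/10000, 42737/10000, 41857/10000,
    37197/10000, 31097/10000, 25837/10000, 21287/10000, 89/50, 7601/5000, 13591/10000, 6533/5000,
    13603/10000, 14731/10000, 787/500]

theorem hfa : ∀ j : Fin 21, fa j = if j.val < 3 + 1 then 1 else 0 := by decide +kernel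

theorem hA : Tab A.datQ fa c μ al be where
  hc := by decide +kernel
  hμ := by decide +kernel
  hα := by decide +kernel
  hβ := by decide +kernel

def fclo : Fin 21 → ℚ := ![
    1419/1930, 463/965, 453/1930, 0, 0, 0, 0, 0, 0, 0, 0, 0, 0, 0, 0, 0, 0, 0, 0, 0, 0]

def clo : Fin 17 → ℚ := ![
    445488/4825, 2059091/193000, 619073/193000, 67433/96500, -25899/482500, -51019/386000,
    -8833/965000, 12659/120625, 277559/1930000, 161651/965000, 271873/1930000, 131269/1206250,
    156641/2412500, 71009/3860000, -457467/19300000, -882287/19300000, -779347/19300000]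

def μlo : ℚ := -3214917/19300000

def allo : Fin 18 → ℚ := ![
    0, 668232/15078125, 153483699/1930000000, 215390999/1930000000, 246410179/1930000000,
    48370391/386000000, 11161501/96500000, 5532169/48250000, 1268469/9650000, 31753237/193000000,
    41775599/193000000, 10638853/38600000, 64745937/193000000, 369468857/965000000,
    193433031/482500000, 88710843/241250000, 262203237/965000000, 98540367/965000000]

def belo : Fin 18 → ℚ := ![
    2107147259/19300000, 325195259/19300000, 618063/100000, 57378859/19300000, 43892259/19300000,
    44928219/19300000, 47479169/19300000, 47655829/19300000, 45630389/19300000,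
    42854799/19300000, 39621779/19300000, 36903049/19300000, 6960549/3860000, 33549617/19300000,
    8298643/4825000, 33652039/19300000, 17267163/9650000, 35313673/19300000]

def alo : Fin 6 → ℚ := ![
    373216787/500000000, -1355517727/1000000000, 148781359/50000000, 875321399/250000000,
    -85013741/50000000, 437766293/500000000]

def blo : Fin 6 → ℚ := ![
    29857343/40000000, -677758863/500000000, 2975627181/1000000000, 3501285597/1000000000,
    -1700274819/1000000000, 875532587/1000000000]

def ulo : Fin 8 → ℚ := ![
    2613477121/1000000000, 144047041/62500000, 2605258559/1000000000, 222110803/100000000,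
    367485661/200000000, 95796551/31250000, 144546723/50000000, 33486639/500000000]

def vlo : Fin 8 → ℚ := ![
    1306738563/500000000, 115237633/50000000, 651314641/250000000, 444221607/200000000,
    1837428309/1000000000, 3065489637/1000000000, 45170851/15625000, 16743321/250000000]

/-- the radius -/
def rlo : ℚ := 193/1000

theorem hrlo : A.datQ.ρ (3 : Fin 21) = rlo := by decide +kernel

theorem hfclo : ∀ j : Fin 21, fclo j = if j.val < 3 + 1 then 1 - A.datQ.ρ j / rlo else 0 := by
  decide +kernel

theorem hClo : Tab A.datQ fclo clo μlo allo belo where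
  hc := by decide +kernel
  hμ := by decide +kernel
  hα := by decide +kernel
  hβ := by decide +kernel

theorem sixlo : Six 18 A.dlo A.dhi sT kT al be allo belo (A.lamLo (3 : Fin 21)) alo blo where
  a0 := by decide +kernel
  b0 := by decide +kernel
  a1 := by decide +kernel
  b1 := by decide +kernel
  a2 := by decide +kernel
  b2 := by decide +kernel
  a3 := by decide +kernel
  b3 := by decide +kernel
  a4 := by decide +kernel
  b4 := by decide +kernel
  a5 := by decide +kernel
  b5 := by decide +kernel

theorem lastlo : Last alo blo ulo vlo where
  p0 := by decide +kernel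
  p1 := by decide +kernel
  p2 := by decide +kernel
  p3 := by decide +kernel
  p4 := by decide +kernel
  p5 := by decide +kernel
  p6 := by decide +kernel
  p7 := by decide +kernel
  f1 := by decide +kernel
  f0 := by decide +kernel
  f2 := by decide +kernel

theorem cklo (h : A.S_BND) : CondQ A.datQ (3 : Fin 21) (A.datQ.ρ (3 : Fin 21)) (A.lamLo (3 : Fin 21)) := by
  rw [hrlo]
  exact condQ A.datQ A.dlo A.dhi (3 : Fin 21) rlo (A.lamLo (3 : Fin 21)) h fa fclo hfa hfclo hA hClo hsT hkT
    (by decide +kernel) (by decide +kernel) sixlo lastlo

def fchi : Fin 21 → ℚ := ![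
    1853/2364, 340/591, 887/2364, 217/1182, 0, 0, 0, 0, 0, 0, 0, 0, 0, 0, 0, 0, 0, 0, 0, 0, 0]

def chi : Fin 17 → ℚ := ![
    1122949/11820, 2587703/236400, 253953/78800, 9053/14775, -121889/1182000, -72301/788000,
    30763/394000, 593/3000, 505843/2364000, 130193/591000, 176337/985000, 806959/5910000,
    976151/11820000, 116579/4728000, -9207/315200, -1371839/23640000, -405751/7880000]

def μhi : ℚ := -5047699/23640000

def alhi : Fin 18 → ℚ := ![
    0, 1122949/24625000, 64399101/788000000, 89794401/788000000, 302698243/2364000000,
    291972011/2364000000, 69034523/591000000, 37055209/295500000, 15466963/98500000,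
    243775501/1182000000, 324495161/1182000000, 413369009/1182000000, 502134499/1182000000,
    95565587/197000000, 601955377/1182000000, 553618627/1182000000, 102393883/295500000,
    76976201/591000000]

def behi : Fin 18 → ℚ := ![
    885459099/7880000, 410479297/23640000, 151708997/23640000, 75523097/23640000,
    20346099/7880000, 63476077/23640000, 65645107/23640000, 63799327/23640000, 19708829/7880000,
    54068057/23640000, 16286779/7880000, 14876083/7880000, 41400413/23640000, 39448111/23640000,
    202423/123125, 13185247/7880000, 2046379/1182000, 42144833/23640000]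

def ahi : Fin 6 → ℚ := ![
    372281301/500000000, -663062719/500000000, 76401591/25000000, 3521367291/1000000000,
    -1709262603/1000000000, 175876157/200000000]

def bhi : Fin 6 → ℚ := ![
    744562603/1000000000, -1326125437/1000000000, 3056063641/1000000000, 880341823/250000000,
    -854631301/500000000, 439690393/500000000]

def uhi : Fin 8 → ℚ := ![
    327734799/125000000, 453339323/200000000, 1343721821/500000000, 455086139/200000000,
    879304337/500000000, 774155683/250000000, 1460789321/500000000, 90466637/1000000000]

def vhi : Fin 8 → ℚ := ![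
    1310939199/500000000, 2266696619/1000000000, 2687443647/1000000000, 22754307/10000000,
    879304339/500000000, 1548311369/500000000, 2921578647/1000000000, 18093329/200000000]

/-- the radius -/
def rhi : ℚ := 591/2500

theorem hrhi : A.datQ.rhi A.RrQ (3 : Fin 21) = rhi := by decide +kernel

theorem hfchi : ∀ j : Fin 21, fchi j = if j.val < 3 + 1 then 1 - A.datQ.ρ j / rhi else 0 := by
  decide +kernel

theorem hChi : Tab A.datQ fchi chi μhi alhi behi where
  hc := by decide +kernel
  hμ := by decide +kernel
  hα := by decide +kernel
  hβ := by decide +kernel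

theorem sixhi : Six 18 A.dlo A.dhi sT kT al be alhi behi (A.lamHi (3 : Fin 21)) ahi bhi where
  a0 := by decide +kernel
  b0 := by decide +kernel
  a1 := by decide +kernel
  b1 := by decide +kernel
  a2 := by decide +kernel
  b2 := by decide +kernel
  a3 := by decide +kernel
  b3 := by decide +kernel
  a4 := by decide +kernel
  b4 := by decide +kernel
  a5 := by decide +kernel
  b5 := by decide +kernel

theorem lasthi : Last ahi bhi uhi vhi where
  p0 := by decide +kernel
  p1 := by decide +kernel
  p2 := by decide +kernel
  p3 := by decide +kernel
  p4 := by decide +kernel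
  p5 := by decide +kernel
  p6 := by decide +kernel
  p7 := by decide +kernel
  f1 := by decide +kernel
  f0 := by decide +kernel
  f2 := by decide +kernel

theorem ckhi (h : A.S_BND) : CondQ A.datQ (3 : Fin 21) (A.datQ.rhi A.RrQ (3 : Fin 21)) (A.lamHi (3 : Fin 21)) := by
  rw [hrhi]
  exact condQ A.datQ A.dlo A.dhi (3 : Fin 21) rhi (A.lamHi (3 : Fin 21)) h fa fchi hfa hfchi hA hChi hsT hkT
    (by decide +kernel) (by decide +kernel) sixhi lasthi

theorem main (h : A.S_BND) : A.S_CK (3 : Fin 21) := ⟨cklo h, ckhi h⟩

end Pool.Agent.N954.P1.J3
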