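import Pool.Agent.N954.P1.Sk

/-!
Project P1 (helper979): the numerical conditions for `J = 4` (helper954).
-/

set_option autoImplicit false
set_option maxRecDepth 100000

namespace Pool.Agent.N954.P1.J4

open Pool.Agent.N979.P1 Pool.Agent.N954.P1

def fa : Fin 21 → ℚ := ![
    1, 1, 1, 1, 1, 0, 0, 0, 0, 0, 0, 0, 0, 0, 0, 0, 0, 0, 0, 0, 0]

def c : Fin 17 → ℚ := ![
    572/5, 641/50, 61/20, -3/20, -243/1000, 91/200, 801/1000, 107/125, 139/200, 299/500,
    1161/2500, 3461/10000, 411/2000, 51/1000, -853/10000, -381/2500, -129/1000]

def μ : ℚ := -5571/10000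

def al : Fin 18 → ℚ := ![
    0, 858/15625, 48609/500000, 63859/500000, 31067/250000, 14197/125000, 146791/1000000,
    234901/1000000, 371861/1000000, 531711/1000000, 717091/1000000, 912139/1000000,
    551247/500000, 1252509/1000000, 1302489/1000000, 1183069/1000000, 863029/1000000,
    321229/1000000]

def be : Fin 18 → ℚ := ![
    270843/2000, 42043/2000, 16403/2000, 10303/2000, 10603/2000, 11089/2000, 10179/2000,
    8577/2000, 1373/400, 219/80, 4279/2000, 16751/10000, 1329/1000, 2247/2000, 429/400,
    5789/5000, 6551/5000, 1799/1250]

theorem hfa : ∀ j : Fin 21, fa j = if j.val < 4 + 1 then 1 else 0 := by decide +kernel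

theorem hA : Tab A.datQ fa c μ al be where
  hc := by decide +kernel
  hμ := by decide +kernel
  hα := by decide +kernel
  hβ := by decide +kernel

def fclo : Fin 21 → ℚ := ![
    1853/2364, 340/591, 887/2364, 217/1182, 0, 0, 0, 0, 0, 0, 0, 0, 0, 0, 0, 0, 0, 0, 0, 0, 0]

def clo : Fin 17 → ℚ := ![
    1122949/11820, 2587703/236400, 253953/78800, 9053/14775, -121889/1182000, -72301/788000,
    30763/394000, 593/3000, 505843/2364000, 130193/591000, 176337/985000, 806959/5910000,
    976151/11820000, 116579/4728000, -9207/315200, -1371839/23640000, -405751/7880000]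

def μlo : ℚ := -5047699/23640000

def allo : Fin 18 → ℚ := ![
    0, 1122949/24625000, 64399101/788000000, 89794401/788000000, 302698243/2364000000,
    291972011/2364000000, 69034523/591000000, 37055209/295500000, 15466963/98500000,
    243775501/1182000000, 324495161/1182000000, 413369009/1182000000, 502134499/1182000000,
    95565587/197000000, 601955377/1182000000, 553618627/1182000000, 102393883/295500000,
    76976201/591000000]

def belo : Fin 18 → ℚ := ![
    885459099/7880000, 410479297/23640000, 151708997/23640000, 75523097/23640000,
    20346099/7880000, 63476077/23640000, 65645107/23640000, 63799327/23640000, 19708829/7880000,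
    54068057/23640000, 16286779/7880000, 14876083/7880000, 41400413/23640000, 39448111/23640000,
    202423/123125, 13185247/7880000, 2046379/1182000, 42144833/23640000]

def alo : Fin 6 → ℚ := ![
    2940241/4000000, -324559249/250000000, 147082897/50000000, 727330573/200000000,
    -216069731/125000000, 453837283/500000000]

def blo : Fin 6 → ℚ := ![
    735060251/1000000000, -259647399/200000000, 2941657941/1000000000, 1818326433/500000000,
    -1728557847/1000000000, 907674567/1000000000]

def ulo : Fin 8 → ℚ := ![
    668289741/250000000, 140254859/62500000, 1335034047/500000000, 108114791/50000000,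
    337083859/200000000, 330089731/100000000, 298791223/100000000, 74627617/500000000]

def vlo : Fin 8 → ℚ := ![
    2673158969/1000000000, 561019437/250000000, 1335034049/500000000, 86491833/40000000,
    842709649/500000000, 825224329/250000000, 1493956117/500000000, 74627621/500000000]

/-- the radius -/
def rlo : ℚ := 591/2500

theorem hrlo : A.datQ.ρ (4 : Fin 21) = rlo := by decide +kernel

theorem hfclo : ∀ j : Fin 21, fclo j = if j.val < 4 + 1 then 1 - A.datQ.ρ j / rlo else 0 := by
  decide +kernel

theorem hClo : Tab A.datQ fclo clo μlo allo belo where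
  hc := by decide +kernel
  hμ := by decide +kernel
  hα := by decide +kernel
  hβ := by decide +kernel

theorem sixlo : Six 18 A.dlo A.dhi sT kT al be allo belo (A.lamLo (4 : Fin 21)) alo blo where
  a0 := by decide +kernel
  b0 := by decide +kernel
  a1 := by decide +kernel
  b1 := by decide +kernel
  a2 := by decide +kernel
  b2 := by decide +kernel
  a3 := by decide +kernel
  b3 := by decide +kernel
  a4 := by decide +kernel
  b4 := by decide +kernel
  a5 := by decide +kernel
  b5 := by decide +kernel

theorem lastlo : Last alo blo ulo vlo where
  p0 := by decide +kernel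
  p1 := by decide +kernel
  p2 := by decide +kernel
  p3 := by decide +kernel
  p4 := by decide +kernel
  p5 := by decide +kernel
  p6 := by decide +kernel
  p7 := by decide +kernel
  f1 := by decide +kernel
  f0 := by decide +kernel
  f2 := by decide +kernel

theorem cklo (h : A.S_BND) : CondQ A.datQ (4 : Fin 21) (A.datQ.ρ (4 : Fin 21)) (A.lamLo (4 : Fin 21)) := by
  rw [hrlo]
  exact condQ A.datQ A.dlo A.dhi (4 : Fin 21) rlo (A.lamLo (4 : Fin 21)) h fa fclo hfa hfclo hA hClo hsT hkT
    (by decide +kernel) (by decide +kernel) sixlo lastlo

def fchi : Fin 21 → ℚ := ![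
    2267/2778, 887/1389, 1301/2778, 424/1389, 69/463, 0, 0, 0, 0, 0, 0, 0, 0, 0, 0, 0, 0, 0, 0,
    0, 0]

def chi : Fin 17 → ℚ := ![
    1359757/13890, 3118451/277800, 296043/92600, 69319/138900, -17219/138900, -9511/926000,
    10754/57875, 205417/694500, 793573/2778000, 96043/347250, 128223/578750, 466069/2778000,
    87596/868125, 158807/5556000, -347889/9260000, -80111/1111200, -583771/9260000]

def μhi : ℚ := -7354093/27780000

def alhi : Fin 18 → ℚ := ![
    0, 1359757/28937500, 15563037/185200000, 21483897/185200000, 70829039/555600000,
    13559699/111120000, 168454783/1389000000, 196845343/1389000000, 87526261/463000000,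
    176919839/694500000, 236466499/694500000, 301090891/694500000, 730350757/1389000000,
    55510859/92600000, 4357853/6945000, 79851391/138900000, 117644507/277800000,
    44089361/277800000]

def behi : Fin 18 → ℚ := ![
    1072340769/9260000, 497508307/27780000, 185663207/27780000, 96850307/27780000,
    27662169/9260000, 86430307/27780000, 86715637/27780000, 81553717/27780000, 24445679/9260000,
    65401307/27780000, 19239289/9260000, 17187721/9260000, 46902473/27780000, 44099401/27780000,
    7217561/4630000, 14783011/9260000, 1448494/868125, 48103121/27780000]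

def ahi : Fin 6 → ℚ := ![
    367235463/500000000, -630991221/500000000, 767148921/250000000, 3654958657/1000000000,
    -1735266501/1000000000, 909584843/1000000000]

def bhi : Fin 6 → ℚ := ![
    734470927/1000000000, -1261982441/1000000000, 613719137/200000000, 1827479329/500000000,
    -3470533/2000000, 227396211/250000000]

def uhi : Fin 8 → ℚ := ![
    2684460869/1000000000, 2189875853/1000000000, 2791148123/1000000000, 2253794313/1000000000,
    1592599681/1000000000, 831123749/250000000, 1505574913/500000000, 10359107/50000000]

def vhi : Fin 8 → ℚ := ![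
    1342230437/500000000, 2189875857/1000000000, 87223379/31250000, 1126897159/500000000,
    398149921/250000000, 3324495001/1000000000, 301114983/100000000, 4143643/20000000]

/-- the radius -/
def rhi : ℚ := 1389/5000

theorem hrhi : A.datQ.rhi A.RrQ (4 : Fin 21) = rhi := by decide +kernel

theorem hfchi : ∀ j : Fin 21, fchi j = if j.val < 4 + 1 then 1 - A.datQ.ρ j / rhi else 0 := by
  decide +kernel

theorem hChi : Tab A.datQ fchi chi μhi alhi behi where
  hc := by decide +kernel
  hμ := by decide +kernel
  hα := by decide +kernel
  hβ := by decide +kernel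

theorem sixhi : Six 18 A.dlo A.dhi sT kT al be alhi behi (A.lamHi (4 : Fin 21)) ahi bhi where
  a0 := by decide +kernel
  b0 := by decide +kernel
  a1 := by decide +kernel
  b1 := by decide +kernel
  a2 := by decide +kernel
  b2 := by decide +kernel
  a3 := by decide +kernel
  b3 := by decide +kernel
  a4 := by decide +kernel
  b4 := by decide +kernel
  a5 := by decide +kernel
  b5 := by decide +kernel

theorem lasthi : Last ahi bhi uhi vhi where
  p0 := by decide +kernel
  p1 := by decide +kernel
  p2 := by decide +kernel
  p3 := by decide +kernel
  p4 := by decide +kernel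
  p5 := by decide +kernel
  p6 := by decide +kernel
  p7 := by decide +kernel
  f1 := by decide +kernel
  f0 := by decide +kernel
  f2 := by decide +kernel

theorem ckhi (h : A.S_BND) : CondQ A.datQ (4 : Fin 21) (A.datQ.rhi A.RrQ (4 : Fin 21)) (A.lamHi (4 : Fin 21)) := by
  rw [hrhi]
  exact condQ A.datQ A.dlo A.dhi (4 : Fin 21) rhi (A.lamHi (4 : Fin 21)) h fa fchi hfa hfchi hA hChi hsT hkT
    (by decide +kernel) (by decide +kernel) sixhi lasthi

theorem main (h : A.S_BND) : A.S_CK (4 : Fin 21) := ⟨cklo h, ckhi h⟩

end Pool.Agent.N954.P1.J4
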