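import Pool.Agent.N954.P1.Sk

/-!
Project P1 (helper979): the numerical conditions for `J = 5` (helper954).
-/

set_option autoImplicit false
set_option maxRecDepth 100000

namespace Pool.Agent.N954.P1.J5

open Pool.Agent.N979.P1 Pool.Agent.N954.P1

def fa : Fin 21 → ℚ := ![
    1, 1, 1, 1, 1, 1, 0, 0, 0, 0, 0, 0, 0, 0, 0, 0, 0, 0, 0, 0, 0]

def c : Fin 17 → ℚ := ![
    127, 348/25, 271/100, -49/100, 117/1000, 491/500, 119/100, 229/200, 909/1000, 97/125,
    5959/10000, 4237/10000, 283/1250, 123/5000, -657/5000, -123/625, -391/2500]

def μ : ℚ := -7063/10000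

def al : Fin 18 → ℚ := ![
    0, 381/6250, 6681/62500, 33499/250000, 61363/500000, 63937/500000, 4989/25000, 16523/50000,
    25683/50000, 72273/100000, 96329/100000, 18962/15625, 1446603/1000000, 2579/1600,
    1635983/1000000, 1452023/1000000, 1038743/1000000, 381863/1000000]

def be : Fin 18 → ℚ := ![
    30067/200, 4667/200, 1883/200, 1341/200, 1439/200, 3539/500, 762/125, 2453/500, 3761/1000,
    713/250, 519/250, 14801/10000, 2641/2500, 83/100, 4027/5000, 1171/1250, 1417/1250, 129/100]

theorem hfa : ∀ j : Fin 21, fa j = if j.val < 5 + 1 then 1 else 0 := by decide +kernel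

theorem hA : Tab A.datQ fa c μ al be where
  hc := by decide +kernel
  hμ := by decide +kernel
  hα := by decide +kernel
  hβ := by decide +kernel

def fclo : Fin 21 → ℚ := ![
    2267/2778, 887/1389, 1301/2778, 424/1389, 69/463, 0, 0, 0, 0, 0, 0, 0, 0, 0, 0, 0, 0, 0, 0,
    0, 0]

def clo : Fin 17 → ℚ := ![
    1359757/13890, 3118451/277800, 296043/92600, 69319/138900, -17219/138900, -9511/926000,
    10754/57875, 205417/694500, 793573/2778000, 96043/347250, 128223/578750, 466069/2778000,
    87596/868125, 158807/5556000, -347889/9260000, -80111/1111200, -583771/9260000]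

def μlo : ℚ := -7354093/27780000

def allo : Fin 18 → ℚ := ![
    0, 1359757/28937500, 15563037/185200000, 21483897/185200000, 70829039/555600000,
    13559699/111120000, 168454783/1389000000, 196845343/1389000000, 87526261/463000000,
    176919839/694500000, 236466499/694500000, 301090891/694500000, 730350757/1389000000,
    55510859/92600000, 4357853/6945000, 79851391/138900000, 117644507/277800000,
    44089361/277800000]

def belo : Fin 18 → ℚ := ![
    1072340769/9260000, 497508307/27780000, 185663207/27780000, 96850307/27780000,
    27662169/9260000, 86430307/27780000, 86715637/27780000, 81553717/27780000, 24445679/9260000,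
    65401307/27780000, 19239289/9260000, 17187721/9260000, 46902473/27780000, 44099401/27780000,
    7217561/4630000, 14783011/9260000, 1448494/868125, 48103121/27780000]

def alo : Fin 6 → ℚ := ![
    362835817/500000000, -615030151/500000000, 2924273109/1000000000, 1902000699/500000000,
    -70115803/40000000, 947127169/1000000000]

def blo : Fin 6 → ℚ := ![
    145134327/200000000, -1230060301/1000000000, 292427311/100000000, 3804001399/1000000000,
    -876447537/500000000, 94712717/100000000]

def ulo : Fin 8 → ℚ := ![
    276045591/100000000, 1078083321/500000000, 2769658511/1000000000, 424412409/200000000,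
    189131043/125000000, 1801436537/500000000, 153632057/50000000, 80729627/250000000]

def vlo : Fin 8 → ℚ := ![
    552091183/200000000, 1078083323/500000000, 553931703/200000000, 2122062049/1000000000,
    1513048347/1000000000, 90071827/25000000, 384080143/125000000, 322918519/1000000000]

/-- the radius -/
def rlo : ℚ := 1389/5000

theorem hrlo : A.datQ.ρ (5 : Fin 21) = rlo := by decide +kernel

theorem hfclo : ∀ j : Fin 21, fclo j = if j.val < 5 + 1 then 1 - A.datQ.ρ j / rlo else 0 := by
  decide +kernel

theorem hClo : Tab A.datQ fclo clo μlo allo belo where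
  hc := by decide +kernel
  hμ := by decide +kernel
  hα := by decide +kernel
  hβ := by decide +kernel

theorem sixlo : Six 18 A.dlo A.dhi sT kT al be allo belo (A.lamLo (5 : Fin 21)) alo blo where
  a0 := by decide +kernel
  b0 := by decide +kernel
  a1 := by decide +kernel
  b1 := by decide +kernel
  a2 := by decide +kernel
  b2 := by decide +kernel
  a3 := by decide +kernel
  b3 := by decide +kernel
  a4 := by decide +kernel
  b4 := by decide +kernel
  a5 := by decide +kernel
  b5 := by decide +kernel

theorem lastlo : Last alo blo ulo vlo where
  p0 := by decide +kernel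
  p1 := by decide +kernel
  p2 := by decide +kernel
  p3 := by decide +kernel
  p4 := by decide +kernel
  p5 := by decide +kernel
  p6 := by decide +kernel
  p7 := by decide +kernel
  f1 := by decide +kernel
  f0 := by decide +kernel
  f2 := by decide +kernel

theorem cklo (h : A.S_BND) : CondQ A.datQ (5 : Fin 21) (A.datQ.ρ (5 : Fin 21)) (A.lamLo (5 : Fin 21)) := by
  rw [hrlo]
  exact condQ A.datQ A.dlo A.dhi (5 : Fin 21) rlo (A.lamLo (5 : Fin 21)) h fa fclo hfa hfclo hA hClo hsT hkT
    (by decide +kernel) (by decide +kernel) sixlo lastlo

def fchi : Fin 21 → ℚ := ![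
    2661/3172, 542/793, 1695/3172, 621/1586, 202/793, 197/1586, 0, 0, 0, 0, 0, 0, 0, 0, 0, 0, 0,
    0, 0, 0, 0]

def chi : Fin 17 → ℚ := ![
    1609947/15860, 3666899/317200, 76531/24400, 29833/79300, -149141/1586000, 47/416,
    246263/793000, 636399/1586000, 1151719/3172000, 2201/6500, 170051/634400, 1582517/7930000,
    230943/1982500, 890959/31720000, -1561383/31720000, -2778167/31720000, -2367529/31720000]

def μhi : ℚ := -2027383/6344000

def alhi : Fin 18 → ℚ := ![
    0, 4829841/99125000, 275562579/3172000000, 375052879/3172000000, 402499239/3172000000,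
    389374831/3172000000, 207768103/1586000000, 261945963/1586000000, 363769803/1586000000,
    2385661/7625000, 82837641/198250000, 420627339/793000000, 253832887/396500000,
    57510113/79300000, 91835327/122000000, 1084562441/1586000000, 396427453/793000000,
    36959227/198250000]

def behi : Fin 18 → ℚ := ![
    3809342207/31720000, 589448207/31720000, 222758307/31720000, 2020787/520000,
    111334807/31720000, 114317627/31720000, 110733877/31720000, 100883357/31720000,
    88155377/31720000, 76638187/31720000, 65897307/31720000, 57394757/31720000, 3928053/2440000,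
    47369601/31720000, 23239321/15860000, 1921601/1268800, 3176137/1982500, 53185721/31720000]

def ahi : Fin 6 → ℚ := ![
    363236061/500000000, -1185098589/1000000000, 3108384887/1000000000, 1910535209/500000000,
    -1756465733/1000000000, 472994441/500000000]

def bhi : Fin 6 → ℚ := ![
    726472123/1000000000, -296274647/250000000, 388548111/125000000, 3821070419/1000000000,
    -439116433/250000000, 945988883/1000000000]

def uhi : Fin 8 → ℚ := ![
    1387950567/500000000, 1040792529/500000000, 367562193/125000000, 564538741/250000000,
    1404458663/1000000000, 903672533/250000000, 3085171867/1000000000, 226023889/500000000]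

def vhi : Fin 8 → ℚ := ![
    138795057/50000000, 1040792531/500000000, 2940497549/1000000000, 2258154969/1000000000,
    702229333/500000000, 1807345069/500000000, 96411621/31250000, 28252987/62500000]

/-- the radius -/
def rhi : ℚ := 793/2500

theorem hrhi : A.datQ.rhi A.RrQ (5 : Fin 21) = rhi := by decide +kernel

theorem hfchi : ∀ j : Fin 21, fchi j = if j.val < 5 + 1 then 1 - A.datQ.ρ j / rhi else 0 := by
  decide +kernel

theorem hChi : Tab A.datQ fchi chi μhi alhi behi where
  hc := by decide +kernel
  hμ := by decide +kernel
  hα := by decide +kernel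
  hβ := by decide +kernel

theorem sixhi : Six 18 A.dlo A.dhi sT kT al be alhi behi (A.lamHi (5 : Fin 21)) ahi bhi where
  a0 := by decide +kernel
  b0 := by decide +kernel
  a1 := by decide +kernel
  b1 := by decide +kernel
  a2 := by decide +kernel
  b2 := by decide +kernel
  a3 := by decide +kernel
  b3 := by decide +kernel
  a4 := by decide +kernel
  b4 := by decide +kernel
  a5 := by decide +kernel
  b5 := by decide +kernel

theorem lasthi : Last ahi bhi uhi vhi where
  p0 := by decide +kernel
  p1 := by decide +kernel
  p2 := by decide +kernel
  p3 := by decide +kernel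
  p4 := by decide +kernel
  p5 := by decide +kernel
  p6 := by decide +kernel
  p7 := by decide +kernel
  f1 := by decide +kernel
  f0 := by decide +kernel
  f2 := by decide +kernel

theorem ckhi (h : A.S_BND) : CondQ A.datQ (5 : Fin 21) (A.datQ.rhi A.RrQ (5 : Fin 21)) (A.lamHi (5 : Fin 21)) := by
  rw [hrhi]
  exact condQ A.datQ A.dlo A.dhi (5 : Fin 21) rhi (A.lamHi (5 : Fin 21)) h fa fchi hfa hfchi hA hChi hsT hkT
    (by decide +kernel) (by decide +kernel) sixhi lasthi

theorem main (h : A.S_BND) : A.S_CK (5 : Fin 21) := ⟨cklo h, ckhi h⟩

end Pool.Agent.N954.P1.J5
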