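import Pool.Agent.N979.P1.StmQ

/-!
Project P1 (helper979): numerical conditions, the generic part (helper954). The coefficients on the
sectors are given by tables, and everything is reduced to a few inequalities between rational
numbers.
-/

set_option autoImplicit false

namespace Pool.Agent.N954.P1

open Pool.Agent.N979.P1

/-- a sum over `Fin n` by recursion -/
def fs : (n : ℕ) → (Fin n → ℚ) → ℚ
  | 0, _ => 0
  | n + 1, f => f 0 + fs n (fun i => f i.succ)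

theorem fs_eq : ∀ (n : ℕ) (f : Fin n → ℚ), fs n f = ∑ i, f i
  | 0, _ => by simp [fs]
  | n + 1, f => by rw [fs, fs_eq n, Fin.sum_univ_succ]

theorem fs_cast (n : ℕ) (f : Fin n → ℚ) : ((fs n f : ℚ) : ℝ) = ∑ i, (f i : ℝ) := by
  rw [fs_eq]; push_cast; rfl

/-- the differences of `τ / (1 + τ²)` at the ends of the sectors -/
def sgQ {L : ℕ} (t : Fin L → ℚ) (l : Fin (L + 1)) : ℚ :=
  (if h : l.val < L then t ⟨l.val, h⟩ / (1 + t ⟨l.val, h⟩ ^ 2) else 0) -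
    (if h : 0 < l.val then t ⟨l.val - 1, by omega⟩ / (1 + t ⟨l.val - 1, by omega⟩ ^ 2) else 0)

/-- the differences of `τ² / (1 + τ²)` at the ends of the sectors -/
def kpQ {L : ℕ} (t : Fin L → ℚ) (l : Fin (L + 1)) : ℚ :=
  (if h : l.val < L then t ⟨l.val, h⟩ ^ 2 / (1 + t ⟨l.val, h⟩ ^ 2) else 1) -
    (if h : 0 < l.val then t ⟨l.val - 1, by omega⟩ ^ 2 / (1 + t ⟨l.val - 1, by omega⟩ ^ 2) else 0)

theorem sg_real {L : ℕ} (t : Fin L → ℚ) (l : Fin (L + 1)) :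
    (up3 (fun i => ((t i : ℚ) : ℝ)) l).2.1 - (lo3 (fun i => ((t i : ℚ) : ℝ)) l).2.1 =
      ((sgQ t l : ℚ) : ℝ) := by
  unfold up3 lo3 sgQ
  by_cases h1 : l.val < L <;> by_cases h2 : 0 < l.val <;> simp [h1, h2]

theorem kp_real {L : ℕ} (t : Fin L → ℚ) (l : Fin (L + 1)) :
    (up3 (fun i => ((t i : ℚ) : ℝ)) l).2.2 - (lo3 (fun i => ((t i : ℚ) : ℝ)) l).2.2 =
      ((kpQ t l : ℚ) : ℝ) := by
  unfold up3 lo3 kpQ
  by_cases h1 : l.val < L <;> by_cases h2 : 0 < l.val <;> simp [h1, h2]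

/-- The tables `c`, `α`, `β` belong to the data `D` with the weights `f`. -/
structure Tab {N L : ℕ} (D : DatQ N L) (f : Fin N → ℚ) (c : Fin L → ℚ) (μ : ℚ)
    (α β : Fin (L + 1) → ℚ) : Prop where
  hc : ∀ i, fs N (fun j => f j * D.m j i) = c i
  hμ : fs N (fun j => f j * D.m0 j) = μ
  hα : ∀ l : Fin (L + 1), fs L (fun i => if i.val < l.val then c i * D.t i else 0) = α l
  hβ : ∀ l : Fin (L + 1), D.ka + μ + fs L (fun i => if l.val ≤ i.val then c i else 0) = β l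

theorem Tab.al_eq {N L : ℕ} {D : DatQ N L} {f : Fin N → ℚ} {c : Fin L → ℚ} {μ : ℚ}
    {α β : Fin (L + 1) → ℚ} (h : Tab D f c μ α β) (l : Fin (L + 1)) :
    D.toDat.al (fun j => ((f j : ℚ) : ℝ)) l = ((α l : ℚ) : ℝ) := by
  have h1 : (∑ j, f j * ∑ i : Fin L, if i.val < l.val then D.m j i * D.t i else 0) = α l := by
    rw [← h.hα l, fs_eq]
    simp only [Finset.mul_sum]
    rw [Finset.sum_comm]
    refine Finset.sum_congr rfl fun i _ => ?_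
    rw [← h.hc i, fs_eq]
    split_ifs with hi
    · rw [Finset.sum_mul]
      exact Finset.sum_congr rfl fun j _ => by ring
    · simp
  rw [← h1]
  unfold Dat.al DatQ.toDat
  push_cast
  refine Finset.sum_congr rfl fun j _ => ?_
  congr 1
  refine Finset.sum_congr rfl fun i _ => ?_
  split_ifs <;> simp

theorem Tab.be_eq {N L : ℕ} {D : DatQ N L} {f : Fin N → ℚ} {c : Fin L → ℚ} {μ : ℚ}
    {α β : Fin (L + 1) → ℚ} (h : Tab D f c μ α β) (l : Fin (L + 1)) :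
    D.toDat.be (fun j => ((f j : ℚ) : ℝ)) l = ((β l : ℚ) : ℝ) := by
  have h1 : D.ka + (∑ j, f j * (D.m0 j + ∑ i : Fin L, if l.val ≤ i.val then D.m j i else 0)) =
      β l := by
    rw [← h.hβ l, fs_eq, ← h.hμ, fs_eq]
    simp only [mul_add, Finset.sum_add_distrib, Finset.mul_sum]
    rw [Finset.sum_comm (s := Finset.univ) (t := Finset.univ), ← add_assoc]
    congr 1
    refine Finset.sum_congr rfl fun i _ => ?_
    rw [← h.hc i, fs_eq]
    split_ifs with hi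
    · rfl
    · simp
  rw [← h1]
  unfold Dat.be DatQ.toDat
  push_cast
  congr 1
  refine Finset.sum_congr rfl fun j _ => ?_
  congr 2
  refine Finset.sum_congr rfl fun i _ => ?_
  split_ifs <;> simp

/-- the lower end of an affine function of the angles -/
def loE (n : ℕ) (dlo dhi p q : Fin n → ℚ) : ℚ :=
  fs n (fun i => (if 0 ≤ p i then p i * dlo i else p i * dhi i) + q i)

theorem loE_le {n : ℕ} {dlo dhi p q : Fin n → ℚ} {d : Fin n → ℝ}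
    (hd : ∀ i, ((dlo i : ℚ) : ℝ) ≤ d i ∧ d i ≤ ((dhi i : ℚ) : ℝ)) {a : ℚ}
    (ha : a ≤ loE n dlo dhi p q) :
    (a : ℝ) ≤ ∑ i, ((p i : ℝ) * d i + (q i : ℝ)) := by
  have h1 : (a : ℝ) ≤ ((loE n dlo dhi p q : ℚ) : ℝ) := by exact_mod_cast ha
  refine h1.trans ?_
  rw [loE, fs_cast]
  refine Finset.sum_le_sum fun i _ => ?_
  have h2 := hd i
  split_ifs with hp
  · have hp' : (0 : ℝ) ≤ (p i : ℝ) := by exact_mod_cast hp
    push_cast
    nlinarith [mul_le_mul_of_nonneg_left h2.1 hp']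
  · have hp' : (p i : ℝ) ≤ 0 := by
      have := (not_le.1 hp).le
      exact_mod_cast this
    push_cast
    nlinarith [mul_le_mul_of_nonpos_left h2.2 hp']

theorem le_hiE {n : ℕ} {dlo dhi p q : Fin n → ℚ} {d : Fin n → ℝ}
    (hd : ∀ i, ((dlo i : ℚ) : ℝ) ≤ d i ∧ d i ≤ ((dhi i : ℚ) : ℝ)) {b : ℚ}
    (hb : loE n dhi dlo p q ≤ b) :
    ∑ i, ((p i : ℝ) * d i + (q i : ℝ)) ≤ (b : ℝ) := by
  have h1 : ((loE n dhi dlo p q : ℚ) : ℝ) ≤ (b : ℝ) := by exact_mod_cast hb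
  refine le_trans ?_ h1
  rw [loE, fs_cast]
  refine Finset.sum_le_sum fun i _ => ?_
  have h2 := hd i
  split_ifs with hp
  · have hp' : (0 : ℝ) ≤ (p i : ℝ) := by exact_mod_cast hp
    push_cast
    nlinarith [mul_le_mul_of_nonneg_left h2.2 hp']
  · have hp' : (p i : ℝ) ≤ 0 := by
      have := (not_le.1 hp).le
      exact_mod_cast this
    push_cast
    nlinarith [mul_le_mul_of_nonpos_left h2.1 hp']

/-- the enclosures of the six numbers -/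
structure Six (n : ℕ) (dlo dhi s k α β α' β' l : Fin n → ℚ) (a b : Fin 6 → ℚ) : Prop where
  a0 : a 0 ≤ loE n dlo dhi (fun i => 1 / (2 * l i)) (fun i => s i / (2 * l i))
  b0 : loE n dhi dlo (fun i => 1 / (2 * l i)) (fun i => s i / (2 * l i)) ≤ b 0
  a1 : a 1 ≤ loE n dlo dhi (fun i => -β' i / (2 * l i))
    (fun i => (α' i * k i - β' i * s i) / (2 * l i))
  b1 : loE n dhi dlo (fun i => -β' i / (2 * l i))
    (fun i => (α' i * k i - β' i * s i) / (2 * l i)) ≤ b 1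
  a2 : a 2 ≤ loE n dlo dhi (fun i => (α' i * α' i + β' i * β' i) / (2 * l i))
    (fun i => (-(α' i * α' i) * s i - 2 * α' i * β' i * k i + β' i * β' i * s i) / (2 * l i))
  b2 : loE n dhi dlo (fun i => (α' i * α' i + β' i * β' i) / (2 * l i))
    (fun i => (-(α' i * α' i) * s i - 2 * α' i * β' i * k i + β' i * β' i * s i) / (2 * l i)) ≤ b 2
  a3 : a 3 ≤ loE n dlo dhi (fun i => (α i * α i + β i * β i) / (2 * l i))
    (fun i => (α i * α i * s i + 2 * α i * β i * k i - β i * β i * s i) / (2 * l i))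
  b3 : loE n dhi dlo (fun i => (α i * α i + β i * β i) / (2 * l i))
    (fun i => (α i * α i * s i + 2 * α i * β i * k i - β i * β i * s i) / (2 * l i)) ≤ b 3
  a4 : a 4 ≤ loE n dlo dhi (fun i => -β i / (2 * l i))
    (fun i => (-(α i * k i) + β i * s i) / (2 * l i))
  b4 : loE n dhi dlo (fun i => -β i / (2 * l i))
    (fun i => (-(α i * k i) + β i * s i) / (2 * l i)) ≤ b 4
  a5 : a 5 ≤ loE n dlo dhi (fun i => 1 / (2 * l i)) (fun i => -s i / (2 * l i))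
  b5 : loE n dhi dlo (fun i => 1 / (2 * l i)) (fun i => -s i / (2 * l i)) ≤ b 5

/-- products of two intervals -/
theorem corners {x y a b c d u v : ℝ} (hx : a ≤ x ∧ x ≤ b) (hy : c ≤ y ∧ y ≤ d)
    (h1 : u ≤ a * c ∧ a * c ≤ v) (h2 : u ≤ a * d ∧ a * d ≤ v) (h3 : u ≤ b * c ∧ b * c ≤ v)
    (h4 : u ≤ b * d ∧ b * d ≤ v) : u ≤ x * y ∧ x * y ≤ v := by
  obtain ⟨hx1, hx2⟩ := hx
  obtain ⟨hy1, hy2⟩ := hy
  -- the values at the corners in `y`
  have e1 : u ≤ x * c ∧ x * c ≤ v := by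
    rcases le_total 0 c with hc | hc
    · constructor
      · exact h1.1.trans (mul_le_mul_of_nonneg_right hx1 hc)
      · exact (mul_le_mul_of_nonneg_right hx2 hc).trans h3.2
    · constructor
      · exact h3.1.trans (mul_le_mul_of_nonpos_right hx2 hc)
      · exact (mul_le_mul_of_nonpos_right hx1 hc).trans h1.2
  have e2 : u ≤ x * d ∧ x * d ≤ v := by
    rcases le_total 0 d with hc | hc
    · constructor
      · exact h2.1.trans (mul_le_mul_of_nonneg_right hx1 hc)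
      · exact (mul_le_mul_of_nonneg_right hx2 hc).trans h4.2
    · constructor
      · exact h4.1.trans (mul_le_mul_of_nonpos_right hx2 hc)
      · exact (mul_le_mul_of_nonpos_right hx1 hc).trans h2.2
  rcases le_total 0 x with hc | hc
  · constructor
    · exact e1.1.trans (mul_le_mul_of_nonneg_left hy1 hc)
    · exact (mul_le_mul_of_nonneg_left hy2 hc).trans e2.2
  · constructor
    · exact e2.1.trans (mul_le_mul_of_nonpos_left hy2 hc)
    · exact (mul_le_mul_of_nonpos_left hy1 hc).trans e1.2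

/-- `[u, v]` contains the product of `[a, b]` and `[c, d]` -/
def Box (a b c d u v : ℚ) : Prop :=
  (u ≤ a * c ∧ a * c ≤ v) ∧ (u ≤ a * d ∧ a * d ≤ v) ∧ (u ≤ b * c ∧ b * c ≤ v) ∧
    (u ≤ b * d ∧ b * d ≤ v)

instance (a b c d u v : ℚ) : Decidable (Box a b c d u v) := by unfold Box; infer_instance

theorem Box.real {a b c d u v : ℚ} (h : Box a b c d u v) {x y : ℝ}
    (hx : (a : ℝ) ≤ x ∧ x ≤ (b : ℝ)) (hy : (c : ℝ) ≤ y ∧ y ≤ (d : ℝ)) :
    (u : ℝ) ≤ x * y ∧ x * y ≤ (v : ℝ) := by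
  obtain ⟨h1, h2, h3, h4⟩ := h
  refine corners hx hy ?_ ?_ ?_ ?_
  · exact ⟨by exact_mod_cast h1.1, by exact_mod_cast h1.2⟩
  · exact ⟨by exact_mod_cast h2.1, by exact_mod_cast h2.2⟩
  · exact ⟨by exact_mod_cast h3.1, by exact_mod_cast h3.2⟩
  · exact ⟨by exact_mod_cast h4.1, by exact_mod_cast h4.2⟩

/-- lower bound of `π` -/
def plo : ℚ := 3.14159265358979323846
/-- upper bound of `π` -/
def phi : ℚ := 3.14159265358979323847

theorem plo_le : ((plo : ℚ) : ℝ) ≤ Real.pi := by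
  have := Real.pi_gt_d20
  unfold plo
  push_cast
  linarith

theorem le_phi : Real.pi ≤ ((phi : ℚ) : ℝ) := by
  have := Real.pi_lt_d20
  unfold phi
  push_cast
  linarith

/-- The final test. `u`, `v`: enclosures of the products `X00 Y00`, `X01 Y01`, `X11 Y11`,
`X00 X11`, `X01 X01`, `Y00 Y11`, `Y01 Y01`, `det X det Y`. -/
structure Last (a b : Fin 6 → ℚ) (u v : Fin 8 → ℚ) : Prop where
  p0 : Box (a 0) (b 0) (a 3) (b 3) (u 0) (v 0)
  p1 : Box (a 1) (b 1) (a 4) (b 4) (u 1) (v 1)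
  p2 : Box (a 2) (b 2) (a 5) (b 5) (u 2) (v 2)
  p3 : Box (a 0) (b 0) (a 2) (b 2) (u 3) (v 3)
  p4 : Box (a 1) (b 1) (a 1) (b 1) (u 4) (v 4)
  p5 : Box (a 3) (b 3) (a 5) (b 5) (u 5) (v 5)
  p6 : Box (a 4) (b 4) (a 4) (b 4) (u 6) (v 6)
  p7 : Box (u 3 - v 4) (v 3 - u 4) (u 5 - v 6) (v 5 - u 6) (u 7) (v 7)
  f1 : v 0 + 2 * v 1 + v 2 ≤ 2 * plo ^ 2
  f0 : 0 ≤ v 0 + 2 * v 1 + v 2
  f2 : 0 ≤ plo ^ 4 - phi ^ 2 * (v 0 + 2 * v 1 + v 2) + u 7

theorem Last.fin {a b : Fin 6 → ℚ} {u v : Fin 8 → ℚ} (h : Last a b u v)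
    {X00 X01 X11 Y00 Y01 Y11 : ℝ} (h0 : ((a 0 : ℚ) : ℝ) ≤ X00 ∧ X00 ≤ ((b 0 : ℚ) : ℝ))
    (h1 : ((a 1 : ℚ) : ℝ) ≤ X01 ∧ X01 ≤ ((b 1 : ℚ) : ℝ))
    (h2 : ((a 2 : ℚ) : ℝ) ≤ X11 ∧ X11 ≤ ((b 2 : ℚ) : ℝ))
    (h3 : ((a 3 : ℚ) : ℝ) ≤ Y00 ∧ Y00 ≤ ((b 3 : ℚ) : ℝ))
    (h4 : ((a 4 : ℚ) : ℝ) ≤ Y01 ∧ Y01 ≤ ((b 4 : ℚ) : ℝ))
    (h5 : ((a 5 : ℚ) : ℝ) ≤ Y11 ∧ Y11 ≤ ((b 5 : ℚ) : ℝ)) :
    X00 * Y00 + 2 * (X01 * Y01) + X11 * Y11 ≤ 2 * Real.pi ^ 2 ∧
    0 ≤ Real.pi ^ 4 - Real.pi ^ 2 * (X00 * Y00 + 2 * (X01 * Y01) + X11 * Y11) +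
      (X00 * X11 - X01 ^ 2) * (Y00 * Y11 - Y01 ^ 2) := by
  have q0 := h.p0.real h0 h3
  have q1 := h.p1.real h1 h4
  have q2 := h.p2.real h2 h5
  have q3 := h.p3.real h0 h2
  have q4 := h.p4.real h1 h1
  have q5 := h.p5.real h3 h5
  have q6 := h.p6.real h4 h4
  have q7 := h.p7.real (x := X00 * X11 - X01 ^ 2) (y := Y00 * Y11 - Y01 ^ 2)
    ⟨by push_cast; nlinarith, by push_cast; nlinarith⟩
    ⟨by push_cast; nlinarith, by push_cast; nlinarith⟩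
  have f1 : ((v 0 : ℚ) : ℝ) + 2 * ((v 1 : ℚ) : ℝ) + ((v 2 : ℚ) : ℝ) ≤ 2 * ((plo : ℚ) : ℝ) ^ 2 := by
    exact_mod_cast h.f1
  have f0 : (0 : ℝ) ≤ ((v 0 : ℚ) : ℝ) + 2 * ((v 1 : ℚ) : ℝ) + ((v 2 : ℚ) : ℝ) := by
    exact_mod_cast h.f0
  have f2 : (0 : ℝ) ≤ ((plo : ℚ) : ℝ) ^ 4 - ((phi : ℚ) : ℝ) ^ 2 *
      (((v 0 : ℚ) : ℝ) + 2 * ((v 1 : ℚ) : ℝ) + ((v 2 : ℚ) : ℝ)) + ((u 7 : ℚ) : ℝ) := by
    exact_mod_cast h.f2
  have hT : X00 * Y00 + 2 * (X01 * Y01) + X11 * Y11 ≤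
      ((v 0 : ℚ) : ℝ) + 2 * ((v 1 : ℚ) : ℝ) + ((v 2 : ℚ) : ℝ) := by linarith [q0.2, q1.2, q2.2]
  have hpl := plo_le
  have hph := le_phi
  have hpl0 : (0 : ℝ) ≤ ((plo : ℚ) : ℝ) := by
    have : (0 : ℚ) ≤ plo := by unfold plo; norm_num
    exact_mod_cast this
  have hpi := Real.pi_pos
  have e1 : ((plo : ℚ) : ℝ) ^ 2 ≤ Real.pi ^ 2 := pow_le_pow_left₀ hpl0 hpl 2
  have e2 : ((plo : ℚ) : ℝ) ^ 4 ≤ Real.pi ^ 4 := pow_le_pow_left₀ hpl0 hpl 4
  have e3 : Real.pi ^ 2 ≤ ((phi : ℚ) : ℝ) ^ 2 := pow_le_pow_left₀ hpi.le hph 2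
  refine ⟨by linarith, ?_⟩
  have e4 : Real.pi ^ 2 * (X00 * Y00 + 2 * (X01 * Y01) + X11 * Y11) ≤
      ((phi : ℚ) : ℝ) ^ 2 * (((v 0 : ℚ) : ℝ) + 2 * ((v 1 : ℚ) : ℝ) + ((v 2 : ℚ) : ℝ)) := by
    refine (mul_le_mul_of_nonneg_left hT (by positivity)).trans ?_
    exact mul_le_mul_of_nonneg_right e3 f0
  linarith [q7.1]

/-- the numerical condition from the tables -/
theorem condQ {N L : ℕ} (D : DatQ N L) (dlo dhi : Fin (L + 1) → ℚ) (J : Fin N) (r : ℚ)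
    (l : Fin (L + 1) → ℚ)
    (hd : ∀ i, ((dlo i : ℚ) : ℝ) ≤ Dl D.toDat.t i ∧ Dl D.toDat.t i ≤ ((dhi i : ℚ) : ℝ))
    (fa fc : Fin N → ℚ) (hfa : ∀ j : Fin N, fa j = if j.val < J.val + 1 then 1 else 0)
    (hfc : ∀ j : Fin N, fc j = if j.val < J.val + 1 then 1 - D.ρ j / r else 0)
    {c c' : Fin L → ℚ} {μ μ' : ℚ} {α β α' β' s k : Fin (L + 1) → ℚ}
    (hA : Tab D fa c μ α β) (hC : Tab D fc c' μ' α' β')
    (hs : ∀ i, sgQ D.t i = s i) (hk : ∀ i, kpQ D.t i = k i)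
    (hl : ∀ i, 0 < l i)
    (hsum : fs (L + 1) (fun i => l i * dhi i) ≤ plo / 2)
    {a b : Fin 6 → ℚ} (h6 : Six (L + 1) dlo dhi s k α β α' β' l a b)
    {u v : Fin 8 → ℚ} (hL : Last a b u v) : CondQ D J r l := by
  have hfA : (fA (J.val + 1) : Fin N → ℝ) = fun j => ((fa j : ℚ) : ℝ) := by
    funext j
    rw [hfa j]
    unfold fA
    split_ifs <;> simp
  have hfC : fC D.toDat (J.val + 1) (r : ℝ) = fun j => ((fc j : ℚ) : ℝ) := by
    funext j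
    rw [hfc j]
    unfold fC DatQ.toDat
    split_ifs <;> simp
  have hl' : ∀ i, (0 : ℝ) < ((l i : ℚ) : ℝ) := fun i => by exact_mod_cast hl i
  have hcc : ∀ i, Icc2 D.toDat.t i = (Dl D.toDat.t i + ((s i : ℚ) : ℝ)) / 2 := by
    intro i
    rw [← hs i, ← sg_real D.t i]
    rfl
  have hss : ∀ i, Iss2 D.toDat.t i = (Dl D.toDat.t i - ((s i : ℚ) : ℝ)) / 2 := by
    intro i
    rw [← hs i, ← sg_real D.t i]
    rfl
  have hcs : ∀ i, Ics2 D.toDat.t i = ((k i : ℚ) : ℝ) / 2 := by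
    intro i
    rw [← hk i, ← kp_real D.t i]
    rfl
  unfold CondQ
  rw [hfA, hfC]
  refine ⟨hl', ?_, ?_⟩
  · have h1 : ((fs (L + 1) (fun i => l i * dhi i) : ℚ) : ℝ) ≤ ((plo / 2 : ℚ) : ℝ) := by
      exact_mod_cast hsum
    rw [fs_cast] at h1
    have h2 : ∑ i, ((l i : ℚ) : ℝ) * Dl D.toDat.t i ≤ ∑ i, (((l i * dhi i : ℚ)) : ℝ) := by
      refine Finset.sum_le_sum fun i _ => ?_
      push_cast
      exact mul_le_mul_of_nonneg_left (hd i).2 (hl' i).le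
    have h3 : ((plo / 2 : ℚ) : ℝ) ≤ Real.pi / 2 := by
      push_cast
      linarith [plo_le]
    exact h2.trans (h1.trans h3)
  · intro X00 X01 X11 Y00 Y01 Y11 e0 e1 e2 e3 e4 e5
    have hne : ∀ i, ((l i : ℚ) : ℝ) ≠ 0 := fun i => (hl' i).ne'
    simp only [hA.al_eq, hA.be_eq, hC.al_eq, hC.be_eq, hcc, hss, hcs] at e0 e1 e2 e3 e4 e5
    refine hL.fin ?_ ?_ ?_ ?_ ?_ ?_
    · have e : X00 = ∑ i, (((1 / (2 * l i) : ℚ) : ℝ) * Dl D.toDat.t i +
          ((s i / (2 * l i) : ℚ) : ℝ)) := by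
        rw [e0]
        refine Finset.sum_congr rfl fun i _ => ?_
        push_cast
        field_simp [hne i]
      rw [e]
      exact ⟨loE_le hd h6.a0, le_hiE hd h6.b0⟩
    · have e : X01 = ∑ i, (((-β' i / (2 * l i) : ℚ) : ℝ) * Dl D.toDat.t i +
          (((α' i * k i - β' i * s i) / (2 * l i) : ℚ) : ℝ)) := by
        rw [e1]
        refine Finset.sum_congr rfl fun i _ => ?_
        push_cast
        field_simp [hne i]
        ring
      rw [e]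
      exact ⟨loE_le hd h6.a1, le_hiE hd h6.b1⟩
    · have e : X11 = ∑ i, ((((α' i * α' i + β' i * β' i) / (2 * l i) : ℚ) : ℝ) * Dl D.toDat.t i +
          (((-(α' i * α' i) * s i - 2 * α' i * β' i * k i + β' i * β' i * s i) / (2 * l i) : ℚ) :
            ℝ)) := by
        rw [e2]
        refine Finset.sum_congr rfl fun i _ => ?_
        push_cast
        field_simp [hne i]
        ring
      rw [e]
      exact ⟨loE_le hd h6.a2, le_hiE hd h6.b2⟩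
    · have e : Y00 = ∑ i, ((((α i * α i + β i * β i) / (2 * l i) : ℚ) : ℝ) * Dl D.toDat.t i +
          (((α i * α i * s i + 2 * α i * β i * k i - β i * β i * s i) / (2 * l i) : ℚ) : ℝ)) := by
        rw [e3]
        refine Finset.sum_congr rfl fun i _ => ?_
        push_cast
        field_simp [hne i]
        ring
      rw [e]
      exact ⟨loE_le hd h6.a3, le_hiE hd h6.b3⟩
    · have e : Y01 = ∑ i, (((-β i / (2 * l i) : ℚ) : ℝ) * Dl D.toDat.t i +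
          (((-(α i * k i) + β i * s i) / (2 * l i) : ℚ) : ℝ)) := by
        rw [e4, ← Finset.sum_neg_distrib]
        refine Finset.sum_congr rfl fun i _ => ?_
        push_cast
        field_simp [hne i]
        ring
      rw [e]
      exact ⟨loE_le hd h6.a4, le_hiE hd h6.b4⟩
    · have e : Y11 = ∑ i, (((1 / (2 * l i) : ℚ) : ℝ) * Dl D.toDat.t i +
          ((-s i / (2 * l i) : ℚ) : ℝ)) := by
        rw [e5]
        refine Finset.sum_congr rfl fun i _ => ?_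
        push_cast
        field_simp [hne i]
        ring
      rw [e]
      exact ⟨loE_le hd h6.a5, le_hiE hd h6.b5⟩

end Pool.Agent.N954.P1
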