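import Pool.Agent.N954.P1.Sk

/-!
Project P1 (helper979): the numerical conditions for `J = 0` (helper954).
-/

set_option autoImplicit false
set_option maxRecDepth 100000

namespace Pool.Agent.N954.P1.J0

open Pool.Agent.N979.P1 Pool.Agent.N954.P1

def fa : Fin 21 → ℚ := ![
    1, 0, 0, 0, 0, 0, 0, 0, 0, 0, 0, 0, 0, 0, 0, 0, 0, 0, 0, 0, 0]

def c : Fin 17 → ℚ := ![
    1597/10, 1827/100, 27/5, 33/25, 73/1000, -28/125, -179/1000, -43/500, -3/1000, 99/1000,
    1151/10000, 119/1000, 897/10000, 11/250, -53/5000, -463/10000, -463/10000]

def μ : ℚ := -9/50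

def al : Fin 18 → ℚ := ![
    0, 4791/62500, 136947/1000000, 190947/1000000, 221307/1000000, 224519/1000000,
    208167/1000000, 188477/1000000, 174717/1000000, 174027/1000000, 204717/1000000,
    253059/1000000, 318509/1000000, 38399/100000, 42711/100000, 41227/100000, 1969/6250,
    6029/50000]

def be : Fin 18 → ℚ := ![
    1864509/10000, 267509/10000, 84809/10000, 30809/10000, 17609/10000, 16879/10000, 19119/10000,
    20909/10000, 21769/10000, 21799/10000, 20809/10000, 9829/5000, 4617/2500, 17571/10000,
    17131/10000, 17237/10000, 177/100, 18163/10000]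

theorem hfa : ∀ j : Fin 21, fa j = if j.val < 0 + 1 then 1 else 0 := by decide +kernel

theorem hA : Tab A.datQ fa c μ al be where
  hc := by decide +kernel
  hμ := by decide +kernel
  hα := by decide +kernel
  hβ := by decide +kernel

def fclo : Fin 21 → ℚ := ![
    0, 0, 0, 0, 0, 0, 0, 0, 0, 0, 0, 0, 0, 0, 0, 0, 0, 0, 0, 0, 0]

def clo : Fin 17 → ℚ := ![
    0, 0, 0, 0, 0, 0, 0, 0, 0, 0, 0, 0, 0, 0, 0, 0, 0]

def μlo : ℚ := 0

def allo : Fin 18 → ℚ := ![
    0, 0, 0, 0, 0, 0, 0, 0, 0, 0, 0, 0, 0, 0, 0, 0, 0, 0]

def belo : Fin 18 → ℚ := ![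
    19963/10000, 19963/10000, 19963/10000, 19963/10000, 19963/10000, 19963/10000, 19963/10000,
    19963/10000, 19963/10000, 19963/10000, 19963/10000, 19963/10000, 19963/10000, 19963/10000,
    19963/10000, 19963/10000, 19963/10000, 19963/10000]

def alo : Fin 6 → ℚ := ![
    770957621/1000000000, -1539062701/1000000000, 768107717/250000000, 400372873/125000000,
    -398061643/250000000, 801356917/1000000000]

def blo : Fin 6 → ℚ := ![
    385478811/500000000, -15390627/10000000, 3072430869/1000000000, 640596597/200000000,
    -1592246571/1000000000, 400678459/500000000]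

def ulo : Fin 8 → ℚ := ![
    2469364141/1000000000, 1225283653/500000000, 38470527/15625000, 296089249/125000000,
    1184356997/500000000, 2566732569/1000000000, 1267624571/500000000, -1/1000000000]

def vlo : Fin 8 → ℚ := ![
    1234682073/500000000, 245056731/100000000, 615528433/250000000, 2368713997/1000000000,
    1184356999/500000000, 1283366287/500000000, 2535249147/1000000000, 1/1000000000]

/-- the radius -/
def rlo : ℚ := 511/10000

theorem hrlo : A.datQ.ρ (0 : Fin 21) = rlo := by decide +kernel

theorem hfclo : ∀ j : Fin 21, fclo j = if j.val < 0 + 1 then 1 - A.datQ.ρ j / rlo else 0 := by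
  decide +kernel

theorem hClo : Tab A.datQ fclo clo μlo allo belo where
  hc := by decide +kernel
  hμ := by decide +kernel
  hα := by decide +kernel
  hβ := by decide +kernel

theorem sixlo : Six 18 A.dlo A.dhi sT kT al be allo belo (A.lamLo (0 : Fin 21)) alo blo where
  a0 := by decide +kernel
  b0 := by decide +kernel
  a1 := by decide +kernel
  b1 := by decide +kernel
  a2 := by decide +kernel
  b2 := by decide +kernel
  a3 := by decide +kernel
  b3 := by decide +kernel
  a4 := by decide +kernel
  b4 := by decide +kernel
  a5 := by decide +kernel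
  b5 := by decide +kernel

theorem lastlo : Last alo blo ulo vlo where
  p0 := by decide +kernel
  p1 := by decide +kernel
  p2 := by decide +kernel
  p3 := by decide +kernel
  p4 := by decide +kernel
  p5 := by decide +kernel
  p6 := by decide +kernel
  p7 := by decide +kernel
  f1 := by decide +kernel
  f0 := by decide +kernel
  f2 := by decide +kernel

theorem cklo (h : A.S_BND) : CondQ A.datQ (0 : Fin 21) (A.datQ.ρ (0 : Fin 21)) (A.lamLo (0 : Fin 21)) := by
  rw [hrlo]
  exact condQ A.datQ A.dlo A.dhi (0 : Fin 21) rlo (A.lamLo (0 : Fin 21)) h fa fclo hfa hfclo hA hClo hsT hkT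
    (by decide +kernel) (by decide +kernel) sixlo lastlo

def fchi : Fin 21 → ℚ := ![
    493/1004, 0, 0, 0, 0, 0, 0, 0, 0, 0, 0, 0, 0, 0, 0, 0, 0, 0, 0, 0, 0]

def chi : Fin 17 → ℚ := ![
    787321/10040, 900711/100400, 13311/5020, 16269/25100, 35989/1004000, -3451/31375,
    -88247/1004000, -21199/502000, -1479/1004000, 48807/1004000, 567443/10040000, 58667/1004000,
    442221/10040000, 5423/251000, -26129/5020000, -228259/10040000, -228259/10040000]

def μhi : ℚ := -4437/50200

def alhi : Fin 18 → ℚ := ![
    0, 2361963/62750000, 67514871/1004000000, 94136871/1004000000, 109104351/1004000000,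
    110687867/1004000000, 102626331/1004000000, 92919161/1004000000, 86135481/1004000000,
    85795311/1004000000, 100925481/1004000000, 124758087/1004000000, 157024937/1004000000,
    18930707/100400000, 21056523/100400000, 20324911/100400000, 970717/6275000, 2972297/50200000]

def behi : Fin 18 → ℚ := ![
    92940403/1004000, 14208303/1004000, 5201193/1004000, 2538993/1004000, 1888233/1004000,
    463061/251000, 490669/251000, 2050923/1004000, 2093321/1004000, 5237/2510, 2045993/1004000,
    19892487/10040000, 19305817/10040000, 4715899/2510000, 4661669/2510000, 9349467/5020000,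
    18927193/10040000, 4788863/2510000]

def ahi : Fin 6 → ℚ := ![
    772508807/1000000000, -729236637/500000000, 988629/320000, 1641255779/500000000,
    -816154551/500000000, 410780009/500000000]

def bhi : Fin 6 → ℚ := ![
    96563601/125000000, -1458473273/1000000000, 1544732813/500000000, 3282511559/1000000000,
    -1632309101/1000000000, 821560019/1000000000]

def uhi : Fin 8 → ℚ := ![
    2535769087/1000000000, 2380679197/1000000000, 1269090717/500000000, 596659851/250000000,
    66473259/31250000, 1348390127/500000000, 2664433001/1000000000, 8393953/1000000000]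

def vhi : Fin 8 → ℚ := ![
    633942273/250000000, 2380679201/1000000000, 2538181439/1000000000, 2386639409/1000000000,
    2127144291/1000000000, 2696780259/1000000000, 532886601/200000000, 2098489/250000000]

/-- the radius -/
def rhi : ℚ := 251/2500

theorem hrhi : A.datQ.rhi A.RrQ (0 : Fin 21) = rhi := by decide +kernel

theorem hfchi : ∀ j : Fin 21, fchi j = if j.val < 0 + 1 then 1 - A.datQ.ρ j / rhi else 0 := by
  decide +kernel

theorem hChi : Tab A.datQ fchi chi μhi alhi behi where
  hc := by decide +kernel
  hμ := by decide +kernel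
  hα := by decide +kernel
  hβ := by decide +kernel

theorem sixhi : Six 18 A.dlo A.dhi sT kT al be alhi behi (A.lamHi (0 : Fin 21)) ahi bhi where
  a0 := by decide +kernel
  b0 := by decide +kernel
  a1 := by decide +kernel
  b1 := by decide +kernel
  a2 := by decide +kernel
  b2 := by decide +kernel
  a3 := by decide +kernel
  b3 := by decide +kernel
  a4 := by decide +kernel
  b4 := by decide +kernel
  a5 := by decide +kernel
  b5 := by decide +kernel

theorem lasthi : Last ahi bhi uhi vhi where
  p0 := by decide +kernel
  p1 := by decide +kernel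
  p2 := by decide +kernel
  p3 := by decide +kernel
  p4 := by decide +kernel
  p5 := by decide +kernel
  p6 := by decide +kernel
  p7 := by decide +kernel
  f1 := by decide +kernel
  f0 := by decide +kernel
  f2 := by decide +kernel

theorem ckhi (h : A.S_BND) : CondQ A.datQ (0 : Fin 21) (A.datQ.rhi A.RrQ (0 : Fin 21)) (A.lamHi (0 : Fin 21)) := by
  rw [hrhi]
  exact condQ A.datQ A.dlo A.dhi (0 : Fin 21) rhi (A.lamHi (0 : Fin 21)) h fa fchi hfa hfchi hA hChi hsT hkT
    (by decide +kernel) (by decide +kernel) sixhi lasthi

theorem main (h : A.S_BND) : A.S_CK (0 : Fin 21) := ⟨cklo h, ckhi h⟩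

end Pool.Agent.N954.P1.J0
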