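import Pool.Agent.N954.P1.Gen
import Pool.Agent.N979.P1.Dat

/-!
Project P1 (helper979): the tables of the sectors (helper954).
-/

set_option autoImplicit false
set_option maxRecDepth 100000

namespace Pool.Agent.N954.P1

open Pool.Agent.N979.P1

def sT : Fin 18 → ℚ := ![
    18750/39062509, 11015607551250/3906293439072301, 6699778900/1000110891089,
    129970100/10006290529, 1311171750/62654126509, 138975250/4842669793, 367028900/10174934809,
    307000/6487561, 421400/6749089, 7429600/115408369, 2391950/32236301, 99970/1532261,
    430920/7986409, 1778750/75127429, -9765/362674, -3395/40034, -41055/252106, -105/466]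

def kT : Fin 18 → ℚ := ![
    9/39062509, 41639062500/3906293439072301, 89110000/1000110891089, 4290000/10006290529,
    87937500/62654126509, 16312500/4842669793, 67710000/10174934809, 84375/6487561,
    170625/6749089, 4320000/115408369, 2007500/32236301, 126100/1532261, 921600/7986409,
    10687500/75127429, 62475/362674, 6125/40034, 33075/252106, 25/466]

theorem hsT : ∀ i : Fin 18, sgQ A.datQ.t i = sT i := by decide +kernel

theorem hkT : ∀ i : Fin 18, kpQ A.datQ.t i = kT i := by decide +kernel

end Pool.Agent.N954.P1
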